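import Pool.Agent.helper64.OT.SpecM

set_option autoImplicit false

namespace Pool.Agent.OT

open Finset

theorem FME_swap1 {X C : Type} [Fintype X] [Fintype C] (G : C → C → X → ℂ) :
    ∑ c, ∑ c', ∑ x, G c c' x = ∑ x, ∑ c, ∑ c', G c c' x := by
  rw [Finset.sum_comm (f := fun x c => ∑ c', G c c' x)]
  refine Finset.sum_congr rfl fun c _ => ?_
  rw [Finset.sum_comm]

theorem FME_swap {X C : Type} [Fintype X] [Fintype C] (F : C → C → X → X → X → X → ℂ) :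
    ∑ c, ∑ c', ∑ x₁, ∑ x₂, ∑ x₃, ∑ x₄, F c c' x₁ x₂ x₃ x₄ = ∑ x₁, ∑ x₂, ∑ x₃, ∑ x₄, ∑ c, ∑ c', F c c' x₁ x₂ x₃ x₄ := by
  rw [FME_swap1]
  refine Finset.sum_congr rfl fun x₁ _ => ?_
  rw [FME_swap1]
  refine Finset.sum_congr rfl fun x₂ _ => ?_
  rw [FME_swap1]
  refine Finset.sum_congr rfl fun x₃ _ => ?_
  rw [FME_swap1]

theorem FME_prod4 {X : Type} [Fintype X] (f g : X → ℂ) :
    (∑ x, f x) * (∑ x, g x) * ((∑ x, f x) * (∑ x, g x)) = ∑ x₁, ∑ x₂, ∑ x₃, ∑ x₄, f x₁ * g x₂ * (f x₃ * g x₄) := by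
  rw [Finset.sum_mul_sum, Finset.sum_mul]
  refine Finset.sum_congr rfl fun x₁ _ => ?_
  rw [Finset.sum_mul]
  refine Finset.sum_congr rfl fun x₂ _ => ?_
  rw [Finset.mul_sum]
  refine Finset.sum_congr rfl fun x₃ _ => ?_
  rw [Finset.mul_sum]

theorem FME_gen {X C : Type} [Fintype X] [Fintype C] (ψ : X → ℝ) (A : C → X → ℂ) :
    ∑ c, ∑ c', ‖∑ x, (ψ x : ℂ) * (A c x * (starRingEnd ℂ) (A c' x))‖ ^ 4 =
      ∑ x₁, ∑ x₂, ∑ x₃, ∑ x₄, ψ x₁ * ψ x₂ * ψ x₃ * ψ x₄ *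
        ‖∑ c, (A c x₁ * A c x₃) * (starRingEnd ℂ) (A c x₂ * A c x₄)‖ ^ 2 := by
  apply Complex.ofReal_injective
  push_cast
  have h1 : ∀ c c' : C, ((‖∑ x, (ψ x : ℂ) * (A c x * (starRingEnd ℂ) (A c' x))‖ : ℝ) : ℂ) ^ 4 =
      ∑ x₁, ∑ x₂, ∑ x₃, ∑ x₄, ((ψ x₁ : ℂ) * (A c x₁ * (starRingEnd ℂ) (A c' x₁))) * ((ψ x₂ : ℂ) * ((starRingEnd ℂ) (A c x₂) * A c' x₂)) *
        (((ψ x₃ : ℂ) * (A c x₃ * (starRingEnd ℂ) (A c' x₃))) * ((ψ x₄ : ℂ) * ((starRingEnd ℂ) (A c x₄) * A c' x₄))) := by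
    intro c c'
    rw [← FME_prod4]
    have h2 : (starRingEnd ℂ) (∑ x, (ψ x : ℂ) * (A c x * (starRingEnd ℂ) (A c' x))) = ∑ x, (ψ x : ℂ) * ((starRingEnd ℂ) (A c x) * A c' x) := by
      rw [map_sum]
      refine Finset.sum_congr rfl fun x _ => ?_
      rw [map_mul, map_mul, Complex.conj_ofReal, Complex.conj_conj]
    rw [← h2, Complex.mul_conj', ← pow_add]
  have h3 : ∀ x₁ x₂ x₃ x₄ : X, ((‖∑ c, (A c x₁ * A c x₃) * (starRingEnd ℂ) (A c x₂ * A c x₄)‖ : ℝ) : ℂ) ^ 2 =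
      ∑ c, ∑ c', ((A c x₁ * A c x₃) * (starRingEnd ℂ) (A c x₂ * A c x₄)) * (starRingEnd ℂ) ((A c' x₁ * A c' x₃) * (starRingEnd ℂ) (A c' x₂ * A c' x₄)) := by
    intro x₁ x₂ x₃ x₄
    rw [← Complex.mul_conj', map_sum, Finset.sum_mul_sum]
  rw [Finset.sum_congr rfl fun c _ => Finset.sum_congr rfl fun c' _ => h1 c c', FME_swap]
  refine Finset.sum_congr rfl fun x₁ _ => Finset.sum_congr rfl fun x₂ _ => Finset.sum_congr rfl fun x₃ _ => Finset.sum_congr rfl fun x₄ _ => ?_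
  rw [h3, Finset.mul_sum]
  refine Finset.sum_congr rfl fun c _ => ?_
  rw [Finset.mul_sum]
  refine Finset.sum_congr rfl fun c' _ => ?_
  simp only [map_mul, Complex.conj_conj]
  ring

theorem FME : FME_stmt := by
  intro p _ χ T
  exact FME_gen (fun x : ZMod p => psi T x) (fun (c : Option (ZMod p)) x => ch χ c x)

end Pool.Agent.OT
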