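import Pool.Agent.helper64.OT.SpecG

/-!
# Project OT (MP_f6e9a2_nt), row og:DLS (adapted from DLF of helper16)
-/

set_option autoImplicit false

namespace Pool.Agent.OG

open Finset Pool.Agent.OT Pool.Agent.SPI Pool.Agent.helper85.PG
open scoped Pointwise

section
variable {p : ℕ} [Fact p.Prime]

private theorem DLS_prod4 (A B C D : ZMod p → ℂ) : (∑ a, A a) * (∑ b, B b) * (∑ c, C c) * (∑ d, D d) =
    ∑ y : ZMod p × ZMod p × ZMod p × ZMod p, A y.1 * B y.2.1 * C y.2.2.1 * D y.2.2.2 := by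
  simp only [Fintype.sum_prod_type, ← Finset.mul_sum, ← Finset.sum_mul]

private theorem DLS_ind (y : ZMod p) : ∑ h : ZMod p, ps (h * y) = if y = 0 then (p : ℂ) else 0 := by
  have h1 := AddChar.sum_mulShift (R := ZMod p) (R' := ℂ) y (ZMod.isPrimitive_stdAddChar p)
  rw [ZMod.card] at h1
  unfold ps
  rw [h1]
  split_ifs <;> simp

private theorem DLS_add (x y : ZMod p) : ps x * ps y = ps (x + y) := by
  unfold ps
  rw [AddChar.map_add_eq_mul]

/-- the complex valued quadratic character -/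
private noncomputable def DLS_q (x : ZMod p) : ℂ := ((quadraticChar (ZMod p) x : ℤ) : ℂ)

private theorem DLS_q_mul (x y : ZMod p) : DLS_q (x * y) = DLS_q x * DLS_q y := by
  unfold DLS_q
  rw [map_mul]
  push_cast
  rfl

private theorem DLS_q_zero : DLS_q (0 : ZMod p) = 0 := by
  unfold DLS_q
  rw [quadraticChar_zero]
  norm_num

private theorem DLS_q_sq (x : ZMod p) (hx : x ≠ 0) : DLS_q (x ^ 2) = 1 := by
  unfold DLS_q
  rw [quadraticChar_sq_one' hx]
  norm_num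

private theorem DLS_q_inv (x : ZMod p) : DLS_q x⁻¹ = DLS_q x := by
  by_cases hx : x = 0
  · rw [hx, inv_zero]
  · have h1 : DLS_q (x⁻¹ * x ^ 2) = DLS_q x⁻¹ := by rw [DLS_q_mul, DLS_q_sq x hx, mul_one]
    rw [← h1]
    congr 1
    field_simp

/-- the sum over `h` -/
private theorem DLS_h (g : ℂ) (hgm : ∀ m : ZMod p, ∑ h : ZMod p, DLS_q h * ps (m * h) = g * DLS_q m) (L m : ZMod p) :
    ∑ h ∈ (univ : Finset (ZMod p)).erase 0, DLS_q (h * L) * ps (-(m / h)) = DLS_q L * (g * DLS_q (-m)) := by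
  have h1 : ∑ h ∈ (univ : Finset (ZMod p)).erase 0, DLS_q (h * L) * ps (-(m / h)) = ∑ h : ZMod p, DLS_q (h * L) * ps (-(m / h)) := by
    rw [← Finset.add_sum_erase univ (fun h => DLS_q (h * L) * ps (-(m / h))) (Finset.mem_univ (0 : ZMod p)), zero_mul, DLS_q_zero,
      zero_mul, zero_add]
  rw [h1, ← hgm (-m), ← Equiv.sum_comp (Equiv.inv (ZMod p)) (fun k => DLS_q k * ps (-m * k)), Finset.mul_sum]
  refine Finset.sum_congr rfl fun h _ => ?_
  show DLS_q (h * L) * ps (-(m / h)) = DLS_q L * (DLS_q h⁻¹ * ps (-m * h⁻¹))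
  rw [DLS_q_inv, DLS_q_mul, div_eq_mul_inv, neg_mul]
  ring

end

theorem DLS (hPSS : PSS_stmt) (hWSS : WSS_stmt) (hGQ : GQ_stmt) (hGF : GF_stmt) : DLS_stmt := by
  intro p _ S hp2 hS lam h0 h1
  obtain ⟨-, hsum⟩ := hPSS p S hS
  obtain ⟨hF, -, -, -⟩ := hWSS p S hS
  obtain ⟨g, hg2, hgA, hgm⟩ := hGQ p hp2
  have hGF' := hGF p g hp2 hgA
  have hp0 : (p : ℂ) ≠ 0 := by exact_mod_cast (Fact.out : p.Prime).ne_zero
  have h20 : (2 : ZMod p) ≠ 0 := by
    intro h
    have h3 : ((2 : ℕ) : ZMod p) = 0 := by exact_mod_cast h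
    rw [ZMod.natCast_eq_zero_iff] at h3
    exact hp2 ((Nat.prime_dvd_prime_iff_eq Fact.out Nat.prime_two).1 h3)
  have h1' : (1 - lam : ZMod p) ≠ 0 := sub_ne_zero.2 (Ne.symm h1)
  -- the sums over four variables
  let G : ZMod p → ℂ := fun h => ∑ x : ZMod p × ZMod p × ZMod p × ZMod p,
    ((psS S x.1 : ℂ) * (psS S x.2.1 : ℂ) * (psS S x.2.2.1 : ℂ) * (psS S x.2.2.2 : ℂ)) * ps (h * qq lam x.1 x.2.1 x.2.2.1 x.2.2.2)
  have hA : (p : ℂ) * (nS S lam : ℂ) = ∑ h, G h := by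
    have e1 : (nS S lam : ℂ) = ∑ x : ZMod p × ZMod p × ZMod p × ZMod p, if qq lam x.1 x.2.1 x.2.2.1 x.2.2.2 = 0 then
        ((psS S x.1 : ℂ) * (psS S x.2.1 : ℂ) * (psS S x.2.2.1 : ℂ) * (psS S x.2.2.2 : ℂ)) else 0 := by
      unfold nS
      simp only [Fintype.sum_prod_type]
      push_cast
      refine Finset.sum_congr rfl fun a _ => Finset.sum_congr rfl fun b _ => Finset.sum_congr rfl fun c _ =>
        Finset.sum_congr rfl fun d _ => ?_
      split_ifs
      · push_cast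
        rfl
      · rfl
    rw [e1, Finset.mul_sum]
    show _ = ∑ h, ∑ x : ZMod p × ZMod p × ZMod p × ZMod p,
      ((psS S x.1 : ℂ) * (psS S x.2.1 : ℂ) * (psS S x.2.2.1 : ℂ) * (psS S x.2.2.2 : ℂ)) * ps (h * qq lam x.1 x.2.1 x.2.2.1 x.2.2.2)
    rw [Finset.sum_comm]
    refine Finset.sum_congr rfl fun x _ => ?_
    rw [← Finset.mul_sum, DLS_ind]
    split_ifs
    · ring
    · ring
  have hG0 : G 0 = ((p : ℂ) / S.card) ^ 4 := by
    have e1 : ∑ x : ZMod p, (psS S x : ℂ) = (p : ℂ) / S.card := by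
      rw [← Complex.ofReal_sum, hsum]
      push_cast
      rfl
    have e2 := DLS_prod4 (fun x : ZMod p => (psS S x : ℂ)) (fun x : ZMod p => (psS S x : ℂ)) (fun x : ZMod p => (psS S x : ℂ))
      (fun x : ZMod p => (psS S x : ℂ))
    rw [e1] at e2
    calc G 0 = ∑ x : ZMod p × ZMod p × ZMod p × ZMod p,
        ((psS S x.1 : ℂ) * (psS S x.2.1 : ℂ) * (psS S x.2.2.1 : ℂ) * (psS S x.2.2.2 : ℂ)) := by
          refine Finset.sum_congr rfl fun x _ => ?_
          have e3 : ps (0 : ZMod p) = 1 := by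
            unfold ps
            rw [AddChar.map_zero_eq_one]
          rw [zero_mul, e3, mul_one]
      _ = ((p : ℂ) / S.card) ^ 4 := by
          rw [← e2]
          ring
  set L : ZMod p := lam / (1 - lam) with hL
  have hGh : ∀ h ∈ (univ : Finset (ZMod p)).erase 0, G h = ∑ a : ZMod p, ∑ b : ZMod p, ∑ c : ZMod p,
      (wqS S a b c : ℂ) * ((p : ℂ) ^ 2 * (g * (DLS_q (h * L) * ps (-(PX a b c lam / (4 * lam * (1 - lam)) / h))))) := by
    intro h hh
    have hh0 : h ≠ 0 := (Finset.mem_erase.1 hh).1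
    have e1 : ∀ x : ZMod p × ZMod p × ZMod p × ZMod p,
        ((psS S x.1 : ℂ) * (psS S x.2.1 : ℂ) * (psS S x.2.2.1 : ℂ) * (psS S x.2.2.2 : ℂ)) * ps (h * qq lam x.1 x.2.1 x.2.2.1 x.2.2.2) =
        ∑ y : ZMod p × ZMod p × ZMod p × ZMod p, ((wS S y.1 : ℂ) * (wS S y.2.1 : ℂ) * (wS S y.2.2.1 : ℂ) * (wS S y.2.2.2 : ℂ)) *
          ps (h * qq lam x.1 x.2.1 x.2.2.1 x.2.2.2 + (y.1 * x.1 + y.2.1 * x.2.1 + y.2.2.1 * x.2.2.1 + y.2.2.2 * x.2.2.2)) := by
      intro x
      rw [hF x.1, hF x.2.1, hF x.2.2.1, hF x.2.2.2, DLS_prod4, Finset.sum_mul]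
      refine Finset.sum_congr rfl fun y _ => ?_
      rw [← DLS_add, ← DLS_add, ← DLS_add, ← DLS_add]
      ring
    have e2 : G h = ∑ y : ZMod p × ZMod p × ZMod p × ZMod p, ((wS S y.1 : ℂ) * (wS S y.2.1 : ℂ) * (wS S y.2.2.1 : ℂ) * (wS S y.2.2.2 : ℂ)) *
        (if y.1 + y.2.1 + y.2.2.1 + y.2.2.2 = 0 then (p : ℂ) ^ 2 * (g * ((quadraticChar (ZMod p) (h * (lam / (1 - lam))) : ℤ) : ℂ) *
          ps (-(PX y.1 y.2.1 y.2.2.1 lam / (4 * lam * (1 - lam) * h)))) else 0) := by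
      show ∑ x : ZMod p × ZMod p × ZMod p × ZMod p, _ = _
      rw [Finset.sum_congr rfl fun x _ => e1 x, Finset.sum_comm]
      refine Finset.sum_congr rfl fun y _ => ?_
      rw [← Finset.mul_sum, ← hGF' h lam y.1 y.2.1 y.2.2.1 y.2.2.2 hh0 h0 h1]
      simp only [Fintype.sum_prod_type]
    rw [e2]
    simp only [Fintype.sum_prod_type]
    refine Finset.sum_congr rfl fun a _ => Finset.sum_congr rfl fun b _ => Finset.sum_congr rfl fun c _ => ?_
    rw [Finset.sum_eq_single (-(a + b + c))]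
    · rw [if_pos (by ring)]
      unfold wqS DLS_q
      push_cast
      rw [div_div, ← hL]
      ring
    · intro d _ hd
      rw [if_neg, mul_zero]
      intro h3
      exact hd (by linear_combination h3)
    · intro h3
      exact absurd (Finset.mem_univ _) h3
  have hB : ∑ h ∈ (univ : Finset (ZMod p)).erase 0, G h = (p : ℂ) * (DSS S lam : ℂ) := by
    rw [Finset.sum_congr rfl hGh, Finset.sum_comm]
    have e0 : (DSS S lam : ℂ) = (p : ℂ) ^ 2 * ∑ a : ZMod p, ∑ b : ZMod p, ∑ c : ZMod p, (wqS S a b c : ℂ) * DLS_q (PX a b c lam) := by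
      unfold DSS DLS_q
      push_cast
      rfl
    rw [e0, Finset.mul_sum, Finset.mul_sum]
    refine Finset.sum_congr rfl fun a _ => ?_
    rw [Finset.sum_comm, Finset.mul_sum, Finset.mul_sum]
    refine Finset.sum_congr rfl fun b _ => ?_
    rw [Finset.sum_comm, Finset.mul_sum, Finset.mul_sum]
    refine Finset.sum_congr rfl fun c _ => ?_
    rw [← Finset.mul_sum, ← Finset.mul_sum, ← Finset.mul_sum, DLS_h g hgm]
    set m : ZMod p := PX a b c lam / (4 * lam * (1 - lam)) with hm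
    have e1 : g ^ 2 = DLS_q (-1 : ZMod p) * p := hg2
    have e2 : DLS_q (-1 : ZMod p) * DLS_q L * DLS_q (-m) = DLS_q (PX a b c lam) := by
      rw [← DLS_q_mul, ← DLS_q_mul]
      have e3 : (-1 : ZMod p) * L * (-m) = PX a b c lam * ((2 * (1 - lam))⁻¹) ^ 2 := by
        have h40 : (4 : ZMod p) ≠ 0 := by
          rw [show (4 : ZMod p) = 2 ^ 2 by norm_num]
          exact pow_ne_zero 2 h20
        have e4 : (-1 : ZMod p) * L * (-m) = lam * PX a b c lam / ((1 - lam) * (4 * lam * (1 - lam))) := by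
          rw [hL, hm, ← div_mul_div_comm]
          ring
        rw [e4, inv_pow, ← div_eq_mul_inv, div_eq_div_iff (mul_ne_zero h1' (mul_ne_zero (mul_ne_zero h40 h0) h1'))
          (pow_ne_zero 2 (mul_ne_zero h20 h1'))]
        ring
      rw [e3, DLS_q_mul, DLS_q_sq _ (inv_ne_zero (mul_ne_zero h20 h1')), mul_one]
    rw [← e2]
    linear_combination ((wqS S a b c : ℂ) * (p : ℂ) ^ 2 * DLS_q L * DLS_q (-m)) * e1
  have hfin : (p : ℂ) * ((nS S lam : ℂ) - ((p : ℂ) / S.card) ^ 4 / p) = (p : ℂ) * (DSS S lam : ℂ) := by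
    rw [mul_sub, hA, ← Finset.add_sum_erase univ G (Finset.mem_univ (0 : ZMod p)), hG0, hB, mul_div_cancel₀ _ hp0]
    ring
  have h3 := mul_left_cancel₀ hp0 hfin
  have h4 : ((nS S lam - ((p : ℝ) / S.card) ^ 4 / p : ℝ) : ℂ) = (DSS S lam : ℂ) := by
    push_cast
    exact h3
  exact Complex.ofReal_injective h4

end Pool.Agent.OG
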