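import Pool.Agent.helper64.OT.SpecF

set_option autoImplicit false

namespace Pool.Agent.OT

open Finset

theorem TRZ_fb {p : ℕ} [Fact p.Prime] (χ : MulChar (ZMod p) ℂ) (Y : Finset (ZMod p)) (β : ZMod p → ℂ)
    (z x : ZMod p) :
    FB χ (Y.image fun y => z - y) (fun b => β (z - b)) (x - z) = ∑ y ∈ Y, β y * χ (x - y) := by
  unfold FB
  rw [Finset.sum_image (fun a _ b _ h => sub_right_injective h)]
  refine Finset.sum_congr rfl fun y _ => ?_
  show β (z - (z - y)) * χ (x - z + (z - y)) = β y * χ (x - y)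
  have h1 : z - (z - y) = y := by ring
  have h2 : x - z + (z - y) = x - y := by ring
  rw [h1, h2]

theorem TRZ : TRZ_stmt := by
  classical
  intro p _ χ N X Y Z β V hN hβ hcov hV
  have hf0 : ∀ x : ZMod p, 0 ≤ ‖∑ y ∈ Y, β y * χ (x - y)‖ := fun x => norm_nonneg _
  have h1 : ∑ x ∈ X, ‖∑ y ∈ Y, β y * χ (x - y)‖ ≤
      ∑ x ∈ X, ∑ z ∈ Z, (if (x - z).val < N then ‖∑ y ∈ Y, β y * χ (x - y)‖ else 0) := by
    refine Finset.sum_le_sum fun x hx => ?_
    obtain ⟨z, hz, n, hn, hxz⟩ := hcov x hx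
    have hval : (x - z).val < N := by
      have e : x - z = (n : ZMod p) := by rw [hxz]; ring
      rw [e, ZMod.val_natCast_of_lt (lt_of_lt_of_le hn hN)]
      exact hn
    have h2 : (if (x - z).val < N then ‖∑ y ∈ Y, β y * χ (x - y)‖ else 0) ≤
        ∑ z ∈ Z, (if (x - z).val < N then ‖∑ y ∈ Y, β y * χ (x - y)‖ else 0) := by
      refine Finset.single_le_sum (f := fun z => if (x - z).val < N then ‖∑ y ∈ Y, β y * χ (x - y)‖ else 0)
        (fun w _ => ?_) hz
      show 0 ≤ (if (x - w).val < N then ‖∑ y ∈ Y, β y * χ (x - y)‖ else 0)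
      split_ifs
      · exact hf0 x
      · exact le_refl 0
    rw [if_pos hval] at h2
    exact h2
  refine h1.trans ?_
  rw [Finset.sum_comm]
  have h3 : ∀ z ∈ Z, ∑ x ∈ X, (if (x - z).val < N then ‖∑ y ∈ Y, β y * χ (x - y)‖ else 0) ≤ V := by
    intro z hz
    rw [← Finset.sum_filter]
    have h4 := hV z hz ((X.filter fun x => (x - z).val < N).image fun x => x - z)
      (Finset.card_image_le.trans (Finset.card_filter_le _ _)) (by
        intro x' hx'
        obtain ⟨x, hx, rfl⟩ := Finset.mem_image.1 hx'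
        exact (Finset.mem_filter.1 hx).2) (fun b => β (z - b)) (fun b => hβ _)
    rw [Finset.sum_image (fun a _ b _ h => sub_left_injective h)] at h4
    simp only [TRZ_fb] at h4
    exact h4
  calc ∑ z ∈ Z, ∑ x ∈ X, (if (x - z).val < N then ‖∑ y ∈ Y, β y * χ (x - y)‖ else 0)
      ≤ ∑ _z ∈ Z, V := Finset.sum_le_sum h3
    _ = Z.card * V := by rw [Finset.sum_const, nsmul_eq_mul]

end Pool.Agent.OT
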